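import Mathlib
import Pool.Agent.Helper31K9.EhrG

/-!
# MP_308823_co, Q1: the rational Ehrhart numerator of a cyclic block polytope is unimodal

For all `m ≥ 1` (odd or even) and all `a ≥ 1` the numerator `h_{m,a}` with respect to the
denominator `(1 - z²)^{am+1}` is a polynomial and it is unimodal; for odd `m ≥ 3` this is Q1.

Idea.  Put `G_{i,j} = 2 (x_{i,1} + ⋯ + x_{i,j}) + j - 1` and `N = 2 q + 2 a - 1`. The lattice points
of `q C` become the signed arrays `N - 2 G` with conditions which compare absolute values only when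
the parities of the `G` (or `N - G`) differ. Listing the entries by absolute value, and grouping
consecutive entries of the same parity, one gets
`h = (1 + z) ∑ z^{K - a} A_{n_1}(z²) ⋯ A_{n_K}(z²)`, a sum over finitely many signed ordered set
partitions of the `a m` positions in `K` blocks of sizes `n_1, …, n_K`, where `A_n` is the Eulerian
polynomial. All summands are symmetric and unimodal with the same centre.
-/

set_option autoImplicit false
open scoped Pointwise

namespace Pool.Agent.Results.MP_308823_co.Unimodality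

/-- The cyclic block polytope `C_m^{(a)} ⊆ ℝ^{am}`: all coordinates are nonnegative and
`R_i + R_{i+1} ≤ 1` for all `i` modulo `m`, where `R_i = ∑_j x_{i,j}`. -/
def cyclicBlock (m a : ℕ) [NeZero m] : Set (Fin m → Fin a → ℝ) :=
  {x | (∀ i j, 0 ≤ x i j) ∧ ∀ i : Fin m, (∑ j, x i j) + (∑ j, x (i + 1) j) ≤ 1}

/-- `L(q)`: the number of integer points of `q C_m^{(a)}`. -/
noncomputable def L (m a : ℕ) [NeZero m] (q : ℕ) : ℕ :=
  Set.ncard {z : Fin m → Fin a → ℤ | (fun i j => ((z i j : ℤ) : ℝ)) ∈ (q : ℝ) • cyclicBlock m a}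

/-- `h` is the rational Ehrhart numerator: `∑_q L(q) z^q = h(z) / (1 - z²)^{am+1}`. -/
def IsNumerator (m a : ℕ) [NeZero m] (h : Polynomial ℤ) : Prop :=
  PowerSeries.mk (fun q : ℕ => (L m a q : ℤ)) *
    (1 - (PowerSeries.X : PowerSeries ℤ) ^ 2) ^ (a * m + 1) = (h : PowerSeries ℤ)

/-- The coefficients `c_i` of `h` satisfy `c_0 ≤ c_1 ≤ ⋯ ≤ c_t ≥ c_{t+1} ≥ ⋯` for some `t`. -/
def Unimodal (h : Polynomial ℤ) : Prop :=
  ∃ t : ℕ, (∀ i, i < t → h.coeff i ≤ h.coeff (i + 1)) ∧ ∀ i, t ≤ i → h.coeff (i + 1) ≤ h.coeff i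

theorem mem_smul_cyclicBlock (m a : ℕ) [NeZero m] (q : ℕ) (x : Fin m → Fin a → ℝ) :
    x ∈ (q : ℝ) • cyclicBlock m a ↔
      (∀ i j, 0 ≤ x i j) ∧ ∀ i : Fin m, (∑ j, x i j) + (∑ j, x (i + 1) j) ≤ q := by
  rcases Nat.eq_zero_or_pos q with hq | hq
  · subst hq
    have hne : (cyclicBlock m a).Nonempty := ⟨0, by
      refine ⟨fun i j => le_rfl, fun i => ?_⟩
      simp⟩
    rw [Nat.cast_zero, Set.zero_smul_set hne]
    simp only [Set.mem_zero]
    constructor
    · rintro rfl
      refine ⟨fun i j => le_rfl, fun i => ?_⟩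
      simp
    · rintro ⟨h1, h2⟩
      funext i j
      have h3 := h2 i
      have h4 : x i j ≤ ∑ j, x i j :=
        Finset.single_le_sum (f := fun j => x i j) (fun j _ => h1 i j) (Finset.mem_univ j)
      have h5 : 0 ≤ ∑ j, x (i + 1) j := Finset.sum_nonneg fun j _ => h1 (i + 1) j
      have := h1 i j
      simp only [Pi.zero_apply]
      linarith
  · have hq' : (0 : ℝ) < q := by exact_mod_cast hq
    rw [Set.mem_smul_set_iff_inv_smul_mem₀ (ne_of_gt hq')]
    unfold cyclicBlock
    simp only [Set.mem_ofPred_eq, Pi.smul_apply, smul_eq_mul]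
    simp only [← Finset.mul_sum, ← mul_add]
    constructor
    · rintro ⟨h1, h2⟩
      refine ⟨fun i j => ?_, fun i => ?_⟩
      · exact (mul_nonneg_iff_of_pos_left (inv_pos.mpr hq')).mp (h1 i j)
      · have := h2 i
        rw [inv_mul_le_iff₀ hq'] at this
        linarith
    · rintro ⟨h1, h2⟩
      refine ⟨fun i j => mul_nonneg (inv_nonneg.mpr hq'.le) (h1 i j), fun i => ?_⟩
      rw [inv_mul_le_iff₀ hq']
      linarith [h2 i]

theorem L_eq (m b : ℕ) [NeZero m] (q : ℕ) :
    L m (b + 1) q = (Pool.Agent.Helper31K9.Ehr.XX m b q).card := by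
  unfold L
  rw [← Set.ncard_coe_finset]
  have hinj : Function.Injective
      (fun x : Fin m → Fin (b + 1) → ℕ => (fun i j => ((x i j : ℕ) : ℤ))) := by
    intro x y h
    funext i j
    have := congrFun (congrFun h i) j
    simp only at this
    exact_mod_cast this
  rw [← Set.ncard_image_of_injective _ hinj]
  congr 1
  ext z
  rw [Set.mem_ofPred_eq, mem_smul_cyclicBlock]
  constructor
  · rintro ⟨h1, h2⟩
    have g1 : ∀ i j, 0 ≤ z i j := fun i j => by exact_mod_cast h1 i j
    have g2 : ∀ i : Fin m, (∑ j, z i j) + (∑ j, z (i + 1) j) ≤ q := fun i => by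
      exact_mod_cast h2 i
    have g3 : ∀ i j, (((z i j).toNat : ℕ) : ℤ) = z i j := fun i j => Int.toNat_of_nonneg (g1 i j)
    refine ⟨fun i j => (z i j).toNat, ?_, ?_⟩
    · rw [Finset.mem_coe, Pool.Agent.Helper31K9.Ehr.mem_XX]
      intro i
      have h3 := g2 i
      have h4 : (((∑ j, (z i j).toNat) + ∑ j, (z (i + 1) j).toNat : ℕ) : ℤ) ≤ (q : ℤ) := by
        push_cast
        simp only [g3]
        exact h3
      exact_mod_cast h4
    · funext i j
      exact g3 i j
  · rintro ⟨x, hx, rfl⟩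
    rw [Finset.mem_coe, Pool.Agent.Helper31K9.Ehr.mem_XX] at hx
    refine ⟨fun i j => by positivity, fun i => ?_⟩
    have := hx i
    simp only [Int.cast_natCast]
    exact_mod_cast this

/-- **Unimodality of the rational Ehrhart numerators of the cyclic block polytopes.** For all
`m ≥ 1`, in particular for all odd `m ≥ 3`, and all `a ≥ 1` there is a numerator `h_{m,a}`, a
polynomial with integer coefficients, and it is unimodal. -/
theorem result (m a : ℕ) [NeZero m] (ha : 1 ≤ a) :
    (∃ h : Polynomial ℤ, IsNumerator m a h) ∧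
    ∀ h : Polynomial ℤ, IsNumerator m a h → Unimodal h := by
  obtain ⟨b, rfl⟩ : ∃ b, a = b + 1 := ⟨a - 1, by omega⟩
  obtain ⟨h₀, hgood, hh₀⟩ := Pool.Agent.Helper31K9.Ehr.numerator m b
  have hL : (fun q : ℕ => (L m (b + 1) q : ℤ)) =
      fun q => ((Pool.Agent.Helper31K9.Ehr.XX m b q).card : ℤ) := by
    funext q
    rw [L_eq]
  have h0 : IsNumerator m (b + 1) h₀ := by
    unfold IsNumerator
    rw [hL]
    exact hh₀
  refine ⟨⟨h₀, h0⟩, fun h hh => ?_⟩
  have he : h = h₀ := by
    unfold IsNumerator at hh h0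
    rw [hh] at h0
    exact Polynomial.coe_injective ℤ h0
  rw [he]
  exact hgood.unimodal

end Pool.Agent.Results.MP_308823_co.Unimodality
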